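import Mathlib
import Pool.Agent.FC.SDF

set_option autoImplicit false
set_option linter.style.haveILetI false

namespace Pool.Agent.FC

/-- A group in which every element has finitely many conjugates. -/
def IsFC (D : Type) [Group D] : Prop := ∀ g : D, (Set.range fun h : D => h * g * h⁻¹).Finite

theorem finiteIndex_of_finite_range {A : Type} [Group A] (H : Subgroup A) {β : Type} (φ : A → β)
    (hφ : (Set.range φ).Finite) (h : ∀ a b, φ a = φ b → a⁻¹ * b ∈ H) : H.FiniteIndex := by
  haveI : Finite (Set.range φ) := hφ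
  haveI : Finite (A ⧸ H) := by
    refine Finite.of_injective (β := Set.range φ) (fun q => ⟨φ q.out, q.out, rfl⟩) ?_
    intro q q' hqq
    have h1 : φ q.out = φ q'.out := congrArg Subtype.val hqq
    have h2 := h _ _ h1
    rw [← QuotientGroup.out_eq' q, ← QuotientGroup.out_eq' q']
    exact QuotientGroup.eq.mpr h2
  exact Subgroup.finiteIndex_of_finite_quotient

theorem IsFC.centralizer_finiteIndex {D : Type} [Group D] (hFC : IsFC D) (g : D) :
    (Subgroup.centralizer {g}).FiniteIndex := by
  refine finiteIndex_of_finite_range _ (fun h => h * g * h⁻¹) (hFC g) ?_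
  intro a b hab
  rw [Subgroup.mem_centralizer_singleton_iff]
  have h1 : a * g * a⁻¹ = b * g * b⁻¹ := hab
  calc a⁻¹ * b * g = a⁻¹ * (b * g * b⁻¹) * b := by group
    _ = a⁻¹ * (a * g * a⁻¹) * b := by rw [h1]
    _ = g * (a⁻¹ * b) := by group

theorem IsFC.centralizer_finiteIndex_of_finite {D : Type} [Group D] (hFC : IsFC D) (s : Set D)
    (hs : s.Finite) : (Subgroup.centralizer s).FiniteIndex := by
  have h1 : Subgroup.centralizer s = ⨅ g : s, Subgroup.centralizer {(g : D)} := by
    ext x
    simp only [Subgroup.mem_iInf, Subgroup.mem_centralizer_iff, Set.mem_singleton_iff,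
      forall_eq, Subtype.forall]
  rw [h1]
  haveI : Finite s := hs
  haveI : ∀ g : s, (Subgroup.centralizer {(g : D)}).FiniteIndex :=
    fun g => hFC.centralizer_finiteIndex g
  exact Subgroup.finiteIndex_iInf (fun g => this g)

/-- A finite-index subgroup has a finite set of coset representatives. -/
theorem exists_finset_transversal {D : Type} [Group D] (H : Subgroup D) (hH : H.FiniteIndex) :
    ∃ R : Finset D, ∀ g : D, ∃ r ∈ R, r⁻¹ * g ∈ H := by
  classical
  haveI : Finite (D ⧸ H) := inferInstance
  haveI : Fintype (D ⧸ H) := Fintype.ofFinite _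
  refine ⟨Finset.univ.image (fun q : D ⧸ H => q.out), fun g => ⟨(g : D ⧸ H).out, ?_, ?_⟩⟩
  · exact Finset.mem_image_of_mem _ (Finset.mem_univ _)
  · apply QuotientGroup.eq.mp
    exact QuotientGroup.out_eq' _

theorem IsFC.exists_pow_mem_center {D : Type} [Group D] (hFC : IsFC D) (g : D) :
    ∃ m, 0 < m ∧ g ^ m ∈ Subgroup.center D := by
  obtain ⟨R, hR⟩ := exists_finset_transversal _ (hFC.centralizer_finiteIndex g)
  have h1 := hFC.centralizer_finiteIndex_of_finite (↑R : Set D) R.finite_toSet
  obtain ⟨m, hm, -, hm2⟩ := Subgroup.exists_pow_mem_of_index_ne_zero h1.index_ne_zero g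
  refine ⟨m, hm, ?_⟩
  rw [Subgroup.mem_center_iff]
  intro x
  obtain ⟨r, hr, hrx⟩ := hR x
  rw [Subgroup.mem_centralizer_iff] at hm2
  have h2 : r * g ^ m = g ^ m * r := hm2 r hr
  rw [Subgroup.mem_centralizer_singleton_iff] at hrx
  have h3 : Commute (r⁻¹ * x) (g ^ m) := Commute.pow_right hrx m
  have h4 : Commute r (g ^ m) := h2
  have h5 : Commute (r * (r⁻¹ * x)) (g ^ m) := h4.mul_left h3
  rw [mul_inv_cancel_left] at h5
  exact h5

theorem IsFC.finite_conjugatesOfSet {D : Type} [Group D] (hFC : IsFC D) (s : Set D)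
    (hs : s.Finite) : (Group.conjugatesOfSet s).Finite := by
  refine (hs.biUnion fun g _ => hFC g).subset ?_
  intro x hx
  rw [Group.mem_conjugatesOfSet_iff] at hx
  obtain ⟨a, ha, hax⟩ := hx
  rw [isConj_iff] at hax
  obtain ⟨c, hc⟩ := hax
  simp only [Set.mem_iUnion]
  exact ⟨a, ha, c, hc⟩

theorem IsFC.finite_normalClosure {D : Type} [Group D] (hFC : IsFC D)
    (htor : ∀ g : D, ∃ m, 0 < m ∧ g ^ m = 1) (s : Set D) (hs : s.Finite) :
    Finite (Subgroup.normalClosure s) := by
  have hC := hFC.finite_conjugatesOfSet s hs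
  haveI : Finite (Group.conjugatesOfSet s) := hC
  set E := Subgroup.closure (Group.conjugatesOfSet s) with hE
  change Finite E
  haveI : Group.FG E := Group.closure_finite_fg _
  have h1 := hFC.centralizer_finiteIndex_of_finite _ hC
  have h2 : ((Subgroup.centralizer (Group.conjugatesOfSet s)).subgroupOf E).FiniteIndex :=
    inferInstance
  have h3 : (Subgroup.centralizer (Group.conjugatesOfSet s)).subgroupOf E ≤ Subgroup.center E := by
    intro x hx
    rw [Subgroup.mem_subgroupOf, Subgroup.mem_centralizer_iff] at hx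
    rw [Subgroup.mem_center_iff]
    intro y
    have h4 : Subgroup.closure (Group.conjugatesOfSet s) ≤ Subgroup.centralizer {(x : D)} := by
      rw [Subgroup.closure_le]
      intro c hc
      rw [SetLike.mem_coe, Subgroup.mem_centralizer_singleton_iff]
      exact hx c hc
    have h5 := h4 y.2
    rw [Subgroup.mem_centralizer_singleton_iff] at h5
    exact Subtype.ext h5
  haveI h4 : (Subgroup.center E).FiniteIndex := Subgroup.finiteIndex_of_le h3
  haveI h5 : Group.FG (Subgroup.center E) := Subgroup.fg_of_index_ne_zero _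
  have h6 : IsMulTorsion (Subgroup.center E) := by
    intro x
    obtain ⟨m, hm, hm2⟩ := htor (x : D)
    rw [isOfFinOrder_iff_pow_eq_one]
    refine ⟨m, hm, ?_⟩
    apply Subtype.ext
    apply Subtype.ext
    simpa using hm2
  letI : CommGroup (Subgroup.center E) :=
    { (inferInstance : Group (Subgroup.center E)) with
      mul_comm := fun a b => Subtype.ext ((Subgroup.mem_center_iff.mp b.2) a) }
  haveI h7 : Finite (Subgroup.center E) := CommGroup.finite_of_fg_isMulTorsion _ h6
  haveI h8 : Finite (E ⧸ Subgroup.center E) := inferInstance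
  exact Finite.of_equiv _ (Subgroup.groupEquivQuotientProdSubgroup (s := Subgroup.center E)).symm

/-- P. Hall: a countable torsion residually finite FC-group embeds in a restricted direct product
of finite groups. -/
theorem SDF.of_countable (D : Type) [Group D] [Countable D] (hFC : IsFC D)
    (htor : ∀ g : D, ∃ m, 0 < m ∧ g ^ m = 1)
    (hrf : ∀ g : D, g ≠ 1 → ∃ H : Subgroup D, H.FiniteIndex ∧ g ∉ H) : SDF D := by
  classical
  obtain ⟨d, hd⟩ := exists_surjective_nat D
  -- the chain of finite normal subgroups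
  set E : ℕ → Subgroup D := fun n => Subgroup.normalClosure (d '' {k | k < n}) with hE
  have hEfin : ∀ n, Finite (E n) := fun n =>
    hFC.finite_normalClosure htor _ ((Set.finite_lt_nat n).image d)
  have hEmono : Monotone E := by
    intro m n hmn
    apply Subgroup.normalClosure_mono
    exact Set.image_mono fun k hk => lt_of_lt_of_le hk hmn
  have hEd : ∀ k n, k < n → d k ∈ E n := fun k n hkn =>
    Subgroup.subset_normalClosure ⟨k, hkn, rfl⟩
  have hE0 : E 0 = ⊥ := by
    rw [hE]
    have : d '' {k | k < 0} = ∅ := by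
      ext x
      simp
    simp only [this]
    rw [eq_bot_iff]
    exact Subgroup.normalClosure_le_normal (Set.empty_subset _)
  -- finite-index normal subgroups avoiding a given finite subgroup
  have hN : ∀ n, ∃ N : Subgroup D, N.Normal ∧ N.FiniteIndex ∧ N ⊓ E n = ⊥ := by
    intro n
    haveI := hEfin n
    choose H hH1 hH2 using hrf
    let K : E n → Subgroup D := fun x => if h : (x : D) = 1 then ⊤ else (H x h).normalCore
    have hK1 : ∀ x, (K x).Normal := by
      intro x
      by_cases h : (x : D) = 1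
      · simp only [K, h, dite_true]
        infer_instance
      · simp only [K, h, dite_false]
        infer_instance
    have hK2 : ∀ x, (K x).FiniteIndex := by
      intro x
      by_cases h : (x : D) = 1
      · simp only [K, h, dite_true]
        infer_instance
      · simp only [K, h, dite_false]
        haveI := hH1 x h
        infer_instance
    refine ⟨⨅ x, K x, Subgroup.normal_iInf_normal hK1, Subgroup.finiteIndex_iInf hK2, ?_⟩
    rw [eq_bot_iff]
    intro x hx12
    obtain ⟨hx1, hx2⟩ := Subgroup.mem_inf.mp hx12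
    rw [Subgroup.mem_bot]
    by_contra hx
    rw [Subgroup.mem_iInf] at hx1
    have h1 := hx1 ⟨x, hx2⟩
    simp only [K, hx, dite_false] at h1
    exact hH2 x hx (Subgroup.normalCore_le _ h1)
  choose N hN1 hN2 hN3 using hN
  have hKn : ∀ n, (N (n + 1) ⊔ E n).Normal := fun n => by
    haveI := hN1 (n + 1)
    haveI : (E n).Normal := Subgroup.normalClosure_normal
    infer_instance
  have hKf : ∀ n, (N (n + 1) ⊔ E n).FiniteIndex := fun n => by
    haveI := hN2 (n + 1)
    exact Subgroup.finiteIndex_of_le (H := N (n+1)) le_sup_left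
  refine ⟨ℕ, fun n => D ⧸ (N (n + 1) ⊔ E n), fun n => by
      haveI := hKn n
      infer_instance, fun n => by
      haveI := hKf n
      infer_instance, ?_⟩
  letI inst : ∀ n, Group (D ⧸ (N (n + 1) ⊔ E n)) := fun n => by
    haveI := hKn n
    exact QuotientGroup.Quotient.group _
  refine ⟨MonoidHom.mk' (fun x n => (x : D ⧸ (N (n + 1) ⊔ E n))) (fun x y => ?_), ?_, ?_⟩
  · funext n
    rfl
  · rw [injective_iff_map_eq_one]
    intro x hx
    by_contra hx1
    have hx2 : ∀ n, x ∈ N (n + 1) ⊔ E n := by
      intro n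
      have h1 : (x : D ⧸ (N (n + 1) ⊔ E n)) = ((1 : D) : D ⧸ (N (n + 1) ⊔ E n)) :=
        congrFun hx n
      rw [QuotientGroup.eq] at h1
      simpa using h1
    obtain ⟨k, hk⟩ := hd x
    have hex : ∃ n, x ∈ E n := ⟨k + 1, hk ▸ hEd k (k + 1) (Nat.lt_succ_self k)⟩
    have hn := Nat.find_spec hex
    have hn0 : Nat.find hex ≠ 0 := by
      intro h0
      rw [h0, hE0, Subgroup.mem_bot] at hn
      exact hx1 hn
    obtain ⟨n, hn'⟩ := Nat.exists_eq_succ_of_ne_zero hn0
    have hnn : x ∉ E n := Nat.find_min hex (by omega)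
    rw [hn'] at hn
    have h3 := hx2 n
    haveI := hN1 (n + 1)
    haveI : (E n).Normal := Subgroup.normalClosure_normal
    rw [Subgroup.mem_sup_of_normal_right] at h3
    obtain ⟨a, ha, b, hb, hab⟩ := h3
    have h4 : a ∈ E (n + 1) := by
      have : a = x * b⁻¹ := by rw [← hab]; group
      rw [this]
      exact (E (n+1)).mul_mem hn ((E (n+1)).inv_mem (hEmono (Nat.le_succ n) hb))
    have h5 : a ∈ N (n + 1) ⊓ E (n + 1) := ⟨ha, h4⟩
    rw [hN3 (n + 1), Subgroup.mem_bot] at h5
    rw [h5, one_mul] at hab
    exact hnn (hab ▸ hb)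
  · intro x
    obtain ⟨k, hk⟩ := hd x
    refine (Set.finite_le_nat k).subset ?_
    intro n hn
    by_contra hkn
    have hkn : k < n := not_le.mp hkn
    apply hn
    have h1 : x ∈ E n := hk ▸ hEd k n hkn
    change (x : D ⧸ (N (n + 1) ⊔ E n)) = ((1 : D) : D ⧸ (N (n + 1) ⊔ E n))
    rw [QuotientGroup.eq]
    simpa using (le_sup_right : E n ≤ N (n + 1) ⊔ E n) h1

end Pool.Agent.FC
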