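import Mathlib
import Pool.Agent.FC.Closure

set_option autoImplicit false
set_option linter.style.haveILetI false

namespace Pool.Agent.FC

/-- A property of sets that follows from closedness under countably many finitary operations. -/
def Finitary {Ω : Type} (P : Set Ω → Prop) : Prop :=
  ∃ φ : Finset Ω → Set Ω, (∀ F, (φ F).Countable) ∧ ∀ M, ClosedUnder φ M → P M

variable {Ω : Type}

theorem Finitary.mono {P Q : Set Ω → Prop} (hP : Finitary P) (h : ∀ M, P M → Q M) : Finitary Q := by
  obtain ⟨φ, h1, h2⟩ := hP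
  exact ⟨φ, h1, fun M hM => h M (h2 M hM)⟩

theorem Finitary.and {P Q : Set Ω → Prop} (hP : Finitary P) (hQ : Finitary Q) :
    Finitary (fun M => P M ∧ Q M) := by
  obtain ⟨φ, h1, h2⟩ := hP
  obtain ⟨ψ, h3, h4⟩ := hQ
  refine ⟨fun F => φ F ∪ ψ F, fun F => (h1 F).union (h3 F), fun M hM => ⟨h2 M ?_, h4 M ?_⟩⟩
  · exact fun F hF => Set.subset_union_left.trans (hM F hF)
  · exact fun F hF => Set.subset_union_right.trans (hM F hF)

theorem Finitary.of_supp {α : Type} (supp : α → Finset Ω)
    (hfin : ∀ F : Finset Ω, {a | supp a ⊆ F}.Countable) (P : α → Set Ω → Prop)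
    (h : ∀ a, ∃ C : Set Ω, C.Countable ∧ ∀ M, (↑(supp a) : Set Ω) ⊆ M → C ⊆ M → P a M) :
    Finitary (fun M => ∀ a, (↑(supp a) : Set Ω) ⊆ M → P a M) := by
  choose C hC1 hC2 using h
  refine ⟨fun F => ⋃ a ∈ {a | supp a ⊆ F}, C a, fun F => (hfin F).biUnion fun a _ => hC1 a, ?_⟩
  intro M hM a ha
  refine hC2 a M ha ?_
  refine Set.Subset.trans ?_ (hM (supp a) ha)
  intro x hx
  simp only [Set.mem_iUnion]
  exact ⟨a, Finset.Subset.refl _, hx⟩

/-- Unary version. -/
theorem Finitary.of_unary {α : Type} (i : α → Ω) (hi : Function.Injective i)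
    (P : α → Set Ω → Prop)
    (h : ∀ a, ∃ C : Set Ω, C.Countable ∧ ∀ M, i a ∈ M → C ⊆ M → P a M) :
    Finitary (fun M => ∀ a, i a ∈ M → P a M) := by
  refine (Finitary.of_supp (fun a => {i a}) ?_ P ?_).mono ?_
  · intro F
    refine Set.Finite.countable ?_
    refine (F.finite_toSet.preimage hi.injOn).subset ?_
    intro a ha
    exact ha (Finset.mem_singleton_self _)
  · intro a
    obtain ⟨C, h1, h2⟩ := h a
    exact ⟨C, h1, fun M hM => h2 M (hM (by simp))⟩
  · intro M hM a ha
    exact hM a (by simpa using ha)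

/-- Binary version. -/
theorem Finitary.of_binary {α β : Type} (i : α → Ω) (hi : Function.Injective i)
    (k : β → Ω) (hk : Function.Injective k) (P : α → β → Set Ω → Prop)
    (h : ∀ a b, ∃ C : Set Ω, C.Countable ∧ ∀ M, i a ∈ M → k b ∈ M → C ⊆ M → P a b M) :
    Finitary (fun M => ∀ a b, i a ∈ M → k b ∈ M → P a b M) := by
  classical
  refine (Finitary.of_supp (fun p : α × β => {i p.1, k p.2}) ?_ (fun p => P p.1 p.2) ?_).mono ?_
  · intro F
    refine Set.Finite.countable ?_
    refine ((F.finite_toSet.preimage hi.injOn).prod (F.finite_toSet.preimage hk.injOn)).subset ?_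
    intro p hp
    exact ⟨hp (by simp), hp (by simp)⟩
  · rintro ⟨a, b⟩
    obtain ⟨C, h1, h2⟩ := h a b
    exact ⟨C, h1, fun M hM => h2 M (hM (by simp)) (hM (by simp))⟩
  · intro M hM a b ha hb
    refine hM (a, b) ?_
    intro x hx
    simp only [Finset.coe_insert, Finset.coe_singleton, Set.mem_insert_iff,
      Set.mem_singleton_iff] at hx
    rcases hx with rfl | rfl
    · exact ha
    · exact hb

/-- Nullary version. -/
theorem Finitary.of_const (x : Ω) : Finitary (fun M => x ∈ M) :=
  ⟨fun _ => {x}, fun _ => Set.countable_singleton x, fun _ hM =>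
    hM ∅ (by simp) rfl⟩

end Pool.Agent.FC
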