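import Mathlib
import Pool.Agent.FC.Split

set_option autoImplicit false
set_option linter.style.haveILetI false
set_option linter.unusedSectionVars false

namespace Pool.Agent.FC

namespace Setup

variable {G : Type} [Group G] {J : Type} [DecidableEq J] {n : J → ℕ} {S : Setup G J n}

theorem Good.Dsub_comp {M : Set S.Om} (hM : S.Good M) (j : J) {d : G → ZMod (n j)}
    (hd : d ∈ hM.Dsub j) (φ : ZMod (n j) → ZMod (n j)) (hφ : φ 0 = 0) :
    (fun g => φ (d g)) ∈ hM.Dsub j := by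
  obtain ⟨hζ, hf, ha⟩ := hd
  have h1 := hM.a_comp _ ha _ hζ hf rfl j φ hφ
  refine iA_cf_congr h1 ?_
  funext g
  rw [DFinsupp.single_eq_same]

theorem Good.baer {M : Set S.Om} (hM : S.Good M) (j : J) :
    Module.Baer (ZMod (n j)) (hM.Dsub j) := by
  classical
  intro I g
  haveI : IsPrincipalIdealRing (ZMod (n j)) :=
    IsPrincipalIdealRing.of_surjective (Int.castRingHom (ZMod (n j))) ZMod.intCast_surjective
  obtain ⟨a, ha⟩ := (IsPrincipalIdealRing.principal I).principal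
  have haI : a ∈ I := by
    rw [ha]
    exact Submodule.mem_span_singleton_self a
  set d := g ⟨a, haI⟩ with hd
  have hex : ∀ x : G, ∃ w, a * w = (d : G → ZMod (n j)) x := by
    intro x
    apply zmod_exists_mul_eq (S.npos j)
    intro y hy
    have h1 : y • d = 0 := by
      rw [hd, ← map_smul]
      have h2 : y • (⟨a, haI⟩ : I) = 0 := Subtype.ext hy
      rw [h2, map_zero]
    have h3 := congrArg (fun e : hM.Dsub j => (e : G → ZMod (n j)) x) h1
    exact h3
  set φ : ZMod (n j) → ZMod (n j) := fun v =>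
    if v = 0 then 0 else if h : ∃ w, a * w = v then h.choose else 0 with hφ
  have hφ0 : φ 0 = 0 := by simp [hφ]
  have hφ1 : ∀ v, (∃ w, a * w = v) → a * φ v = v := by
    intro v hv
    by_cases h0 : v = 0
    · rw [h0, hφ0, mul_zero]
    · simp only [hφ, if_neg h0, dif_pos hv]
      exact hv.choose_spec
  set d' : hM.Dsub j := ⟨fun x => φ ((d : G → ZMod (n j)) x), hM.Dsub_comp j d.2 φ hφ0⟩ with hd'
  have hd'' : a • d' = d := by
    apply Subtype.ext
    funext x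
    exact hφ1 _ (hex x)
  refine ⟨LinearMap.toSpanSingleton _ _ d', ?_⟩
  intro x hx
  have hx' : x ∈ Submodule.span (ZMod (n j)) {a} := ha ▸ hx
  obtain ⟨c, hc⟩ := Submodule.mem_span_singleton.mp hx'
  rw [LinearMap.toSpanSingleton_apply]
  have h4 : (⟨x, hx⟩ : I) = c • ⟨a, haI⟩ := Subtype.ext hc.symm
  rw [h4, map_smul, ← hd, ← hd'', ← hc, smul_smul, smul_eq_mul]

/-- The restriction map to `M`. -/
def Good.res {M : Set S.Om} (hM : S.Good M) (j : J) :
    hM.Dsub j →ₗ[ZMod (n j)] ({g : G // S.iG g ∈ M} → ZMod (n j)) :=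
  (LinearMap.funLeft (ZMod (n j)) (ZMod (n j)) Subtype.val).comp (Submodule.subtype _)

theorem Good.res_injective {M : Set S.Om} (hM : S.Good M) (j : J) :
    Function.Injective (hM.res j) := by
  rw [injective_iff_map_eq_zero]
  rintro ⟨d, hζ, hf, hd⟩ h
  have h1 : ∀ g, S.iG g ∈ M → d g = 0 := fun g hg => congrFun h ⟨g, hg⟩
  have h2 := hM.a_faith _ hd (by
    intro g hg
    rw [cf_apply, h1 g hg, DFinsupp.single_zero, S.τ_zero, one_mul])
  apply Subtype.ext
  funext g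
  have h3 : (S.cf (fun g => DFinsupp.single j (d g)) hζ hf : Equiv.Perm G) g = g := by
    rw [h2]
    rfl
  rw [cf_apply] at h3
  have h4 : S.τ (DFinsupp.single j (d g)) = S.τ 0 := by
    rw [S.τ_zero]
    exact mul_eq_right.mp h3
  have h5 := S.τ_inj h4
  have h6 := DFunLike.congr_fun h5 j
  rw [DFinsupp.single_eq_same] at h6
  exact h6

theorem Good.exists_retr {M : Set S.Om} (hM : S.Good M) (j : J) :
    ∃ r : ({g : G // S.iG g ∈ M} → ZMod (n j)) →ₗ[ZMod (n j)] hM.Dsub j,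
      ∀ d : hM.Dsub j, r (fun m => (d : G → ZMod (n j)) m.1) = d := by
  obtain ⟨r, hr⟩ := (hM.baer j).extension_property (hM.res j) (hM.res_injective j) LinearMap.id
  exact ⟨r, fun d => LinearMap.congr_fun hr d⟩

/-- Assemble finitely many coordinates into an element of `M`. -/
theorem Good.assemble {M : Set S.Om} (hM : S.Good M) (d : ∀ j, hM.Dsub j) (J₁ : Finset J) :
    ∃ ζ hζ hf, S.iA (S.cf ζ hζ hf) ∈ M ∧
      ∀ g j, ζ g j = if j ∈ J₁ then (d j : G → ZMod (n j)) g else 0 := by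
  induction J₁ using Finset.induction with
  | empty =>
    refine ⟨0, CF.zero S, range_zero, ?_, ?_⟩
    · rw [cf_zero]
      exact hM.a_one
    · intro g j
      simp
  | insert j₀ J₁ hj₀ ih =>
    obtain ⟨ζ, hζ, hf, hζM, hζv⟩ := ih
    obtain ⟨hξ, hf', hξM⟩ := (d j₀).2
    refine ⟨_, CF.add S hζ hξ, range_add hf hf', ?_, ?_⟩
    · rw [← cf_mul _ _ hζ hf hξ hf']
      exact hM.a_mul _ _ hζM hξM
    · intro g j
      rw [Pi.add_apply, DFinsupp.add_apply, hζv g j]
      by_cases hj : j = j₀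
      · subst hj
        rw [if_neg hj₀, if_pos (Finset.mem_insert_self _ _), DFinsupp.single_eq_same, zero_add]
      · rw [DFinsupp.single_eq_of_ne hj]
        simp only [Finset.mem_insert, hj, false_or, add_zero]

/-- `w` is the retraction of `u`. -/
def Good.IsRho {M : Set S.Om} (hM : S.Good M)
    (r : ∀ j, ({g : G // S.iG g ∈ M} → ZMod (n j)) →ₗ[ZMod (n j)] hM.Dsub j) (u w : S.A) : Prop :=
  ∃ (v : {g : G // S.iG g ∈ M} → Π₀ j, ZMod (n j)) (ζ : G → Π₀ j, ZMod (n j)) (hζ : S.CF ζ)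
    (hf : (Set.range ζ).Finite), (∀ m, (u : Equiv.Perm G) m.1 = S.τ (v m) * m.1) ∧
    S.cf ζ hζ hf = w ∧ (∀ g j, ζ g j = (r j (fun m => v m j) : G → ZMod (n j)) g)

theorem Good.IsRho.unique {M : Set S.Om} {hM : S.Good M}
    {r : ∀ j, ({g : G // S.iG g ∈ M} → ZMod (n j)) →ₗ[ZMod (n j)] hM.Dsub j} {u w w' : S.A}
    (h : hM.IsRho r u w) (h' : hM.IsRho r u w') : w = w' := by
  obtain ⟨v, ζ, hζ, hf, hv, rfl, hr⟩ := h
  obtain ⟨v', ζ', hζ', hf', hv', rfl, hr'⟩ := h'
  have h1 : v = v' := by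
    funext m
    have := hv m
    rw [hv' m] at this
    exact (S.τ_inj (mul_right_cancel this)).symm
  subst h1
  have h2 : ζ = ζ' := by
    funext g
    ext j
    rw [hr, hr']
  subst h2
  rfl

theorem Good.IsRho.mul {M : Set S.Om} {hM : S.Good M}
    {r : ∀ j, ({g : G // S.iG g ∈ M} → ZMod (n j)) →ₗ[ZMod (n j)] hM.Dsub j} {u w u' w' : S.A}
    (h : hM.IsRho r u w) (h' : hM.IsRho r u' w') : hM.IsRho r (u * u') (w * w') := by
  obtain ⟨v, ζ, hζ, hf, hv, rfl, hr⟩ := h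
  obtain ⟨v', ζ', hζ', hf', hv', rfl, hr'⟩ := h'
  refine ⟨v' + v, ζ + ζ', CF.add S hζ hζ', range_add hf hf', ?_, ?_, ?_⟩
  · intro m
    change (u : Equiv.Perm G) ((u' : Equiv.Perm G) m.1) = _
    rw [hv' m, (A_loc u).smul, hv m, S.τ_τ_mul, Pi.add_apply]
  · rw [cf_mul]
  · intro g j
    have h1 : (fun m => (v' + v) m j) = (fun m => v' m j) + (fun m => v m j) := by
      funext m
      rw [Pi.add_apply, DFinsupp.add_apply, Pi.add_apply]
    rw [h1, map_add, Pi.add_apply, DFinsupp.add_apply, hr, hr', add_comm]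
    rfl

theorem Good.exists_rho {M : Set S.Om} (hM : S.Good M)
    (r : ∀ j, ({g : G // S.iG g ∈ M} → ZMod (n j)) →ₗ[ZMod (n j)] hM.Dsub j) (u : S.A)
    (hu : InX M u) : ∃ w, hM.IsRho r u w ∧ S.iA w ∈ M ∧ InX M w ∧ ∀ y, Commute w y := by
  classical
  have h1 : ∀ m : {g : G // S.iG g ∈ M}, ∃ t, (u : Equiv.Perm G) m.1 = S.τ t * m.1 :=
    fun m => hu m.1 m.2
  choose v hv using h1
  have hfin : (Set.range v).Finite := by
    refine Set.Finite.of_finite_image (f := S.τ) ((A_fin u).subset ?_) S.τ_inj.injOn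
    rintro _ ⟨_, ⟨k, rfl⟩, rfl⟩
    refine ⟨k.1, ?_⟩
    change (u : Equiv.Perm G) k.1 * (k.1)⁻¹ = S.τ (v k)
    rw [hv k]
    group
  set J₁ : Finset J := hfin.toFinset.biUnion fun t => t.support with hJ₁
  have hv0 : ∀ j, j ∉ J₁ → (fun m => v m j) = 0 := by
    intro j hj
    funext m
    by_contra hne
    apply hj
    rw [hJ₁, Finset.mem_biUnion]
    exact ⟨v m, hfin.mem_toFinset.mpr ⟨m, rfl⟩, DFinsupp.mem_support_iff.mpr hne⟩
  obtain ⟨ζ, hζ, hf, hζM, hζv⟩ := hM.assemble (fun j => r j (fun m => v m j)) J₁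
  refine ⟨S.cf ζ hζ hf, ⟨v, ζ, hζ, hf, hv, rfl, ?_⟩, hζM, ?_, ?_⟩
  · intro g j
    rw [hζv g j]
    by_cases hj : j ∈ J₁
    · rw [if_pos hj]
    · rw [if_neg hj, hv0 j hj, map_zero]
      rfl
  · intro g _
    exact ⟨ζ g, cf_apply S ζ hζ hf g⟩
  · intro y
    exact cf_commute y ζ hζ hf

theorem Good.isRho_self {M : Set S.Om} (hM : S.Good M)
    (r : ∀ j, ({g : G // S.iG g ∈ M} → ZMod (n j)) →ₗ[ZMod (n j)] hM.Dsub j)
    (hr : ∀ j (d : hM.Dsub j), r j (fun m => (d : G → ZMod (n j)) m.1) = d) (u : S.A)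
    (hu : InX M u) (huM : S.iA u ∈ M) : hM.IsRho r u u := by
  obtain ⟨ζ, hζ, hf, rfl⟩ := exists_cf u (hM.a_T u huM hu)
  refine ⟨fun m => ζ m.1, ζ, hζ, hf, fun m => cf_apply S ζ hζ hf m.1, rfl, ?_⟩
  intro g j
  have h1 : (fun g => ζ g j) ∈ hM.Dsub j := by
    have := hM.a_comp _ huM _ hζ hf rfl j (fun v => v) rfl
    exact ⟨_, _, this⟩
  have h2 := hr j ⟨_, h1⟩
  change ζ g j = (r j (fun m => ζ m.1 j) : G → ZMod (n j)) g
  rw [h2]

/-- The splitting: for good `M` the group `A` retracts onto the part of `A` inside `M`, and the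
kernel of the retraction commutes with that part. -/
theorem Good.retraction {M : Set S.Om} (hM : S.Good M) (Δ : Subgroup S.A)
    (hΔ : ∀ x, x ∈ Δ ↔ S.iA x ∈ M) :
    ∃ f : S.A →* S.A, (∀ x, f x ∈ Δ) ∧ (∀ x ∈ Δ, f x = x) ∧
      (∀ x y, f x = 1 → Commute x (f y)) := by
  classical
  have hr := fun j => hM.exists_retr j
  choose r hr using hr
  let X : Subgroup S.A :=
    { carrier := {x | InX M x}
      one_mem' := fun g _ => ⟨0, by rw [S.τ_zero, one_mul]; rfl⟩
      mul_mem' := by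
        intro x y hx hy g hg
        obtain ⟨t, ht⟩ := hy g hg
        obtain ⟨s, hs⟩ := hx g hg
        refine ⟨t + s, ?_⟩
        change (x : Equiv.Perm G) ((y : Equiv.Perm G) g) = _
        rw [ht, (A_loc x).smul, hs, S.τ_τ_mul]
      inv_mem' := by
        intro x hx g hg
        obtain ⟨t, ht⟩ := hx g hg
        refine ⟨-t, ?_⟩
        apply (x : Equiv.Perm G).injective
        change (x : Equiv.Perm G) ((x : Equiv.Perm G).symm g) = _
        rw [Equiv.apply_symm_apply, (A_loc x).smul, ht, S.τ_τ_mul, neg_add_cancel, S.τ_zero,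
          one_mul] }
  have hρ := fun u : X => hM.exists_rho r u.1 u.2
  choose ρ hρ1 hρ2 hρ3 hρ4 using hρ
  refine exists_retraction Δ X ?_ ?_ (MonoidHom.mk' ρ ?_) ?_ ?_ ?_ ?_
  · intro x
    obtain ⟨δ, hδ, hx⟩ := hM.stepA x
    refine ⟨δ, (hΔ δ).mpr hδ, ?_⟩
    intro g hg
    obtain ⟨t, ht⟩ := hx g hg
    refine ⟨t, ?_⟩
    apply (δ : Equiv.Perm G).injective
    change (δ : Equiv.Perm G) ((δ : Equiv.Perm G).symm ((x : Equiv.Perm G) g)) = _
    rw [Equiv.apply_symm_apply, (A_loc δ).smul, ht]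
  · intro δ hδ u hu
    exact hM.commute hu ((hΔ δ).mp hδ)
  · intro u u'
    exact (hρ1 (u * u')).unique ((hρ1 u).mul (hρ1 u'))
  · intro u
    exact (hΔ _).mpr (hρ2 u)
  · intro u
    exact hρ3 u
  · intro u hu
    exact (hρ1 u).unique (hM.isRho_self r hr u.1 u.2 ((hΔ _).mp hu))
  · intro u y
    exact hρ4 u y

end Setup

end Pool.Agent.FC
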