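import Mathlib
import Pool.Agent.FC.Main

set_option autoImplicit false
set_option linter.style.haveILetI false
set_option linter.unusedSectionVars false

namespace Pool.Agent.FC

/-- Amalgamation of a group `G` with an abelian group `T` over a common central subgroup. -/
theorem exists_pushout {G T D : Type} [Group G] [CommGroup T] [CommGroup D] (κ : D →* G)
    (ι : D →* T) (hκ : ∀ d, κ d ∈ Subgroup.center G) (hκi : Function.Injective κ)
    (hι : Function.Injective ι) :
    ∃ (P : Type) (_ : Group P) (a : G →* P) (b : T →* P), Function.Injective a ∧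
      Function.Injective b ∧ (∀ t p, b t * p = p * b t) ∧ (∀ p, ∃ g t, p = a g * b t) ∧
      (∀ d, a (κ d) = b (ι d)) := by
  let N : Subgroup (G × T) := (κ.prod (ι⁻¹)).range
  have hN : ∀ x : G × T, x ∈ N ↔ ∃ d, κ d = x.1 ∧ (ι d)⁻¹ = x.2 := by
    intro x
    constructor
    · rintro ⟨d, rfl⟩
      exact ⟨d, rfl, rfl⟩
    · rintro ⟨d, h1, h2⟩
      exact ⟨d, Prod.ext h1 h2⟩
  haveI : N.Normal := by
    refine ⟨fun x hx g => ?_⟩
    obtain ⟨d, h1, h2⟩ := (hN x).mp hx
    refine (hN _).mpr ⟨d, ?_, ?_⟩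
    · change κ d = g.1 * x.1 * (g.1)⁻¹
      rw [← h1, (Subgroup.mem_center_iff.mp (hκ d)) g.1]
      group
    · change (ι d)⁻¹ = g.2 * x.2 * (g.2)⁻¹
      rw [h2, mul_comm g.2, mul_inv_cancel_right]
  refine ⟨(G × T) ⧸ N, inferInstance, (QuotientGroup.mk' N).comp (MonoidHom.inl G T),
    (QuotientGroup.mk' N).comp (MonoidHom.inr G T), ?_, ?_, ?_, ?_, ?_⟩
  · rw [injective_iff_map_eq_one]
    intro g hg
    have h1 : ((g, 1) : G × T) ∈ N := (QuotientGroup.eq_one_iff _).mp hg
    obtain ⟨d, h2, h3⟩ := (hN _).mp h1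
    have h4 : ι d = 1 := inv_eq_one.mp h3
    have h5 : d = 1 := hι (h4.trans (map_one ι).symm)
    have h6 : κ d = g := h2
    rw [← h6, h5, map_one]
  · rw [injective_iff_map_eq_one]
    intro t ht
    have h1 : ((1, t) : G × T) ∈ N := (QuotientGroup.eq_one_iff _).mp ht
    obtain ⟨d, h2, h3⟩ := (hN _).mp h1
    have h5 : d = 1 := hκi (h2.trans (map_one κ).symm)
    have h6 : (ι d)⁻¹ = t := h3
    rw [← h6, h5, map_one, inv_one]
  · intro t p
    induction p using QuotientGroup.induction_on with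
    | H x =>
      change (QuotientGroup.mk (((1 : G), t) * x) : (G × T) ⧸ N) = QuotientGroup.mk (x * (1, t))
      congr 1
      refine Prod.ext ?_ ?_
      · change 1 * x.1 = x.1 * 1
        rw [one_mul, mul_one]
      · exact mul_comm _ _
  · intro p
    induction p using QuotientGroup.induction_on with
    | H x =>
      refine ⟨x.1, x.2, ?_⟩
      change (QuotientGroup.mk x : (G × T) ⧸ N) = QuotientGroup.mk ((x.1, (1 : T)) * ((1 : G), x.2))
      congr 1
      refine Prod.ext ?_ ?_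
      · exact (mul_one _).symm
      · exact (one_mul _).symm
  · intro d
    change (QuotientGroup.mk (κ d, (1 : T)) : (G × T) ⧸ N) = QuotientGroup.mk ((1 : G), ι d)
    rw [QuotientGroup.eq]
    refine (hN _).mpr ⟨d⁻¹, ?_, ?_⟩
    · change κ d⁻¹ = (κ d)⁻¹ * 1
      rw [map_inv, mul_one]
    · change (ι d⁻¹)⁻¹ = 1⁻¹ * ι d
      rw [map_inv, inv_inv, inv_one, one_mul]

/-- The general case, given an embedding of `[G,G] ∩ Z(G)` in a direct sum of finite cyclic
groups. -/
theorem sdf_of_embedding {G : Type} [Group G] (hG : IsFC G) {J : Type} (n : J → ℕ)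
    (hn : ∀ j, n j ≠ 0) {D : Type} [CommGroup D] (κ : D →* G) (hκi : Function.Injective κ)
    (hκ : ∀ d, κ d ∈ Subgroup.center G)
    (hκr : ∀ g, g ∈ commutator G → g ∈ Subgroup.center G → g ∈ Set.range κ)
    (ι : D →* Multiplicative (Π₀ j, ZMod (n j))) (hι : Function.Injective ι) :
    SDF (G ⧸ Subgroup.center G) := by
  classical
  obtain ⟨P, instP, a, b, ha, hb, hbc, hab, hκι⟩ := exists_pushout κ ι hκ hκi hι
  have hcent : ∀ g, a g ∈ Subgroup.center P ↔ g ∈ Subgroup.center G := by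
    intro g
    rw [Subgroup.mem_center_iff, Subgroup.mem_center_iff]
    constructor
    · intro h k
      apply ha
      rw [map_mul, map_mul]
      exact h (a k)
    · intro h p
      obtain ⟨k, t, rfl⟩ := hab p
      rw [mul_assoc, hbc, ← mul_assoc, ← map_mul, h k, map_mul, mul_assoc]
  have hcomm : commutator P ≤ (commutator G).map a := by
    rw [commutator_def, Subgroup.commutator_le]
    intro p _ q _
    obtain ⟨g, t, rfl⟩ := hab p
    obtain ⟨h, s, rfl⟩ := hab q
    have hgh := Subgroup.commutator_mem_commutator (Subgroup.mem_top g) (Subgroup.mem_top h)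
    rw [commutatorElement_def] at hgh
    refine ⟨g * h * g⁻¹ * h⁻¹, hgh, ?_⟩
    rw [commutatorElement_def, map_mul, map_mul, map_mul, map_inv, map_inv, mul_inv_rev,
      mul_inv_rev]
    have e1 := hbc t
    have e2 : (b t)⁻¹ * ((a h * b s)) = a h * b s * (b t)⁻¹ := by
      rw [inv_mul_eq_iff_eq_mul, ← mul_assoc, e1 (a h * b s), mul_inv_cancel_right]
    have e3 : ∀ p, (b s)⁻¹ * p = p * (b s)⁻¹ := by
      intro p
      rw [inv_mul_eq_iff_eq_mul, ← mul_assoc, hbc s p, mul_inv_cancel_right]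
    have e4 : ∀ p, (b t)⁻¹ * p = p * (b t)⁻¹ := by
      intro p
      rw [inv_mul_eq_iff_eq_mul, ← mul_assoc, hbc t p, mul_inv_cancel_right]
    calc a g * a h * (a g)⁻¹ * (a h)⁻¹
        = a g * (b t * (b t)⁻¹) * a h * (b s * (b s)⁻¹) * (a g)⁻¹ * (a h)⁻¹ := by group
      _ = a g * b t * ((b t)⁻¹ * a h) * b s * ((b s)⁻¹ * ((a g)⁻¹ * (a h)⁻¹)) := by group
      _ = a g * b t * (a h * (b t)⁻¹) * b s * ((a g)⁻¹ * (a h)⁻¹ * (b s)⁻¹) := by rw [e3, e4]
      _ = a g * b t * a h * ((b t)⁻¹ * (b s * (a g)⁻¹)) * (a h)⁻¹ * (b s)⁻¹ := by group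
      _ = a g * b t * a h * (b s * (a g)⁻¹ * (b t)⁻¹) * (a h)⁻¹ * (b s)⁻¹ := by rw [e4]
      _ = a g * b t * (a h * b s) * ((a g)⁻¹ * (b t)⁻¹) * ((a h)⁻¹ * (b s)⁻¹) := by group
      _ = a g * b t * (a h * b s) * ((b t)⁻¹ * (a g)⁻¹) * ((b s)⁻¹ * (a h)⁻¹) := by
        rw [e4, e3]
  let S : Setup P J n :=
    { τ := fun t => b (Multiplicative.ofAdd t)
      τ_add := fun x y => by rw [ofAdd_add, map_mul]
      τ_inj := fun x y h => Multiplicative.ofAdd.injective (hb h)
      τ_comm := fun x p => hbc _ p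
      mem_range := by
        intro p hp hpc
        obtain ⟨c, hc, rfl⟩ := hcomm hp
        obtain ⟨d, rfl⟩ := hκr c hc ((hcent c).mp hpc)
        exact ⟨Multiplicative.toAdd (ι d), (hκι d).symm⟩
      fc := by
        intro p
        obtain ⟨g, t, rfl⟩ := hab p
        refine ((hG g).image (fun x => a x * b t)).subset ?_
        rintro _ ⟨q, rfl⟩
        obtain ⟨h, s, rfl⟩ := hab q
        refine ⟨h * g * h⁻¹, ⟨h, rfl⟩, ?_⟩
        change a (h * g * h⁻¹) * b t = a h * b s * (a g * b t) * (a h * b s)⁻¹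
        rw [map_mul, map_mul, map_inv, mul_inv_rev]
        have e3 : ∀ p, (b s)⁻¹ * p = p * (b s)⁻¹ := by
          intro p
          rw [inv_mul_eq_iff_eq_mul, ← mul_assoc, hbc s p, mul_inv_cancel_right]
        calc a h * a g * (a h)⁻¹ * b t = a h * a g * ((a h)⁻¹ * b t) := by group
          _ = a h * a g * (b t * (a h)⁻¹) := by rw [hbc t]
          _ = a h * (b s * (b s)⁻¹) * a g * (b t * (a h)⁻¹) := by group
          _ = a h * b s * ((b s)⁻¹ * (a g * (b t * (a h)⁻¹))) := by group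
          _ = a h * b s * (a g * (b t * (a h)⁻¹) * (b s)⁻¹) := by rw [e3]
          _ = a h * b s * (a g * b t) * ((a h)⁻¹ * (b s)⁻¹) := by group
          _ = _ := by rw [e3]
      npos := hn }
  refine SDF.of_injective S.sdf_A
    (QuotientGroup.lift (Subgroup.center G) (S.inn.comp a) ?_) ?_
  · intro x hx
    exact (S.inn_eq_one_iff (a x)).mpr ((hcent x).mpr hx)
  · rw [injective_iff_map_eq_one]
    intro x
    induction x using QuotientGroup.induction_on with
    | H k =>
      intro h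
      have h1 : S.inn (a k) = 1 := h
      exact (QuotientGroup.eq_one_iff k).mpr ((hcent k).mp ((S.inn_eq_one_iff (a k)).mp h1))

end Pool.Agent.FC
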